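import Pool.Agent.H28.N6.Lib

set_option autoImplicit false
open MeasureTheory Pool.Agent.H28.N6

namespace Pool.Agent.H59.N6D

/-- a quadratic form is continuous -/
theorem continuous_qf {F : Type} [NontriviallyNormedField F] {ι : Type} [Fintype ι]
    (G : Matrix ι ι F) : Continuous fun z : ι → F => qf G z := by
  unfold qf
  exact Continuous.dotProduct continuous_id (Continuous.matrix_mulVec continuous_const continuous_id)

/-- two forms without common zero: a lower bound on vectors of norm one -/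
theorem lower_one {F : Type} [NontriviallyNormedField F] [ProperSpace F]
    (A B : Matrix (Fin 4) (Fin 4) F)
    (h : ∀ z : Fin 4 → F, z ≠ 0 → qf A z = 0 → qf B z ≠ 0) :
    ∃ c : ℝ, 0 < c ∧ ∀ z : Fin 4 → F, ‖z‖ = 1 → c ≤ max ‖qf A z‖ ‖qf B z‖ := by
  have hK : IsCompact (Metric.sphere (0 : Fin 4 → F) 1) := isCompact_sphere _ _
  have hne : (Metric.sphere (0 : Fin 4 → F) 1).Nonempty := by
    refine ⟨fun _ => 1, ?_⟩
    rw [mem_sphere_zero_iff_norm]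
    rw [pi_norm_const]
    exact norm_one
  have hc : Continuous fun z : Fin 4 → F => max ‖qf A z‖ ‖qf B z‖ :=
    ((continuous_qf A).norm).max ((continuous_qf B).norm)
  obtain ⟨z0, hz0, hmin⟩ := hK.exists_isMinOn hne hc.continuousOn
  refine ⟨max ‖qf A z0‖ ‖qf B z0‖, ?_, ?_⟩
  · have hz : z0 ≠ 0 := by
      rintro rfl
      rw [mem_sphere_zero_iff_norm, norm_zero] at hz0
      exact zero_ne_one hz0
    by_cases hA : qf A z0 = 0
    · exact lt_max_of_lt_right (norm_pos_iff.2 (h z0 hz hA))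
    · exact lt_max_of_lt_left (norm_pos_iff.2 hA)
  · intro z hz
    exact hmin (mem_sphere_zero_iff_norm.2 hz)

/-- the norm of a vector is the norm of a coordinate -/
theorem exists_coord {F : Type} [NontriviallyNormedField F] (z : Fin 4 → F) :
    ∃ i, ‖z‖ = ‖z i‖ := by
  obtain ⟨i, -, hi⟩ := Finset.exists_mem_eq_sup' (Finset.univ_nonempty (α := Fin 4))
    (fun i => ‖z i‖₊)
  refine ⟨i, ?_⟩
  have e : ‖z‖₊ = ‖z i‖₊ := by
    rw [← hi, Finset.sup'_eq_sup]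
    rfl
  exact congrArg NNReal.toReal e

theorem lower {F : Type} [NontriviallyNormedField F] [ProperSpace F]
    (A B : Matrix (Fin 4) (Fin 4) F)
    (h : ∀ z : Fin 4 → F, z ≠ 0 → qf A z = 0 → qf B z ≠ 0) :
    ∃ c : ℝ, 0 < c ∧ ∀ z : Fin 4 → F, c * ‖z‖ ^ 2 ≤ max ‖qf A z‖ ‖qf B z‖ := by
  obtain ⟨c, hc, h1⟩ := lower_one A B h
  refine ⟨c, hc, fun z => ?_⟩
  by_cases hz : z = 0
  · subst hz
    rw [norm_zero]
    refine le_trans (le_of_eq ?_) (le_max_of_le_left (norm_nonneg _))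
    ring
  obtain ⟨i, hi⟩ := exists_coord z
  have hn : 0 < ‖z‖ := norm_pos_iff.2 hz
  have hzi : z i ≠ 0 := by
    intro h0
    rw [h0, norm_zero] at hi
    exact hn.ne' hi
  have h2 := h1 ((z i)⁻¹ • z) (by rw [norm_smul, norm_inv, ← hi, inv_mul_cancel₀ hn.ne'])
  rw [qf_smul_vec, qf_smul_vec, norm_mul, norm_mul, norm_pow, norm_inv, ← hi,
    ← mul_max_of_nonneg _ _ (by positivity)] at h2
  have h3 : (‖z‖⁻¹) ^ 2 * max ‖qf A z‖ ‖qf B z‖ * ‖z‖ ^ 2 = max ‖qf A z‖ ‖qf B z‖ := by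
    field_simp
  calc c * ‖z‖ ^ 2 ≤ (‖z‖⁻¹) ^ 2 * max ‖qf A z‖ ‖qf B z‖ * ‖z‖ ^ 2 :=
        mul_le_mul_of_nonneg_right h2 (by positivity)
    _ = _ := h3

/-- scaling for the common level sets -/
theorem pf_MSC (hBAL : T_BAL) : T_MSC := by
  intro F _ _ _ _ _ D A B h
  obtain ⟨c, hc, hl⟩ := lower A B h
  have hp0 : 0 < ‖D.p‖ := norm_pos_iff.2 D.p0
  obtain ⟨m0, hm0⟩ := exists_pow_lt_of_lt_one hc D.p1
  refine ⟨m0, fun m hm => ?_⟩
  -- the preimage of the set for `m + 2` under multiplication by `p` is the set for `m`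
  have hmm : ‖D.p‖ ^ m ≤ c :=
    le_trans (pow_le_pow_of_le_one hp0.le D.p1.le hm) hm0.le
  have hpre : (fun z : Fin 4 → F => D.p • z) ⁻¹'
      {z : Fin 4 → F | (∀ i, ‖z i‖ ≤ 1) ∧ max ‖qf A z‖ ‖qf B z‖ ≤ ‖D.p‖ ^ (m + 2)} =
      {z : Fin 4 → F | (∀ i, ‖z i‖ ≤ 1) ∧ max ‖qf A z‖ ‖qf B z‖ ≤ ‖D.p‖ ^ m} := by
    ext z
    simp only [Set.mem_preimage, Set.mem_ofPred_eq]
    have e1 : max ‖qf A (D.p • z)‖ ‖qf B (D.p • z)‖ =
        ‖D.p‖ ^ 2 * max ‖qf A z‖ ‖qf B z‖ := by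
      rw [qf_smul_vec, qf_smul_vec, norm_mul, norm_mul, norm_pow,
        ← mul_max_of_nonneg _ _ (by positivity)]
    have e2 : ‖D.p‖ ^ (m + 2) = ‖D.p‖ ^ 2 * ‖D.p‖ ^ m := by
      rw [pow_add, mul_comm]
    rw [e1, e2, mul_le_mul_iff_right₀ (by positivity : (0 : ℝ) < ‖D.p‖ ^ 2)]
    constructor
    · rintro ⟨-, h2⟩
      refine ⟨fun i => ?_, h2⟩
      have h3 : c * ‖z‖ ^ 2 ≤ c * 1 := by
        calc c * ‖z‖ ^ 2 ≤ _ := hl z
          _ ≤ ‖D.p‖ ^ m := h2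
          _ ≤ c := hmm
          _ = c * 1 := (mul_one c).symm
      have h4 : ‖z‖ ^ 2 ≤ 1 := le_of_mul_le_mul_left h3 hc
      have h5 : ‖z‖ ≤ 1 := by
        by_contra h6
        push Not at h6
        nlinarith
      exact le_trans (norm_le_pi_norm z i) h5
    · rintro ⟨h1, h2⟩
      refine ⟨fun i => ?_, h2⟩
      rw [Pi.smul_apply, smul_eq_mul, norm_mul]
      exact mul_le_one₀ D.p1.le (norm_nonneg _) (h1 i)
  have hB := (hBAL F D (Fin 4)).2.2.1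
    {z : Fin 4 → F | (∀ i, ‖z i‖ ≤ 1) ∧ max ‖qf A z‖ ‖qf B z‖ ≤ ‖D.p‖ ^ (m + 2)} 1 D.p
    (by rw [pow_one])
  rw [hpre, Fintype.card_fin, pow_one] at hB
  rw [hB, ← mul_assoc, inv_mul_cancel₀, one_mul]
  have : (D.q : ℝ) ≠ 0 := by
    have := D.hq
    positivity
  exact pow_ne_zero _ this

end Pool.Agent.H59.N6D
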