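import Pool.Agent.H28.N6.Lib

set_option autoImplicit false
open MeasureTheory Pool.Agent.H28.N6

namespace Pool.Agent.H59.N6D

/-- the member at infinity is a limit of affine members -/
theorem pf_INF (hLCO : T_LCO) : T_INF := by
  intro F _ _ _ h2 n k A B hA hB hdet hiso
  obtain ⟨δ, hδ, h⟩ := hLCO F h2 n B hB hdet
  -- a bound for the entries of `A`
  obtain ⟨M, hM0, hM⟩ : ∃ M : ℝ, 0 < M ∧ ∀ i j, ‖A i j‖ ≤ M := by
    refine ⟨1 + ∑ i, ∑ j, ‖A i j‖, ?_, ?_⟩
    · have : 0 ≤ ∑ i, ∑ j, ‖A i j‖ :=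
        Finset.sum_nonneg fun i _ => Finset.sum_nonneg fun j _ => norm_nonneg _
      linarith
    · intro i j
      have h1 : ‖A i j‖ ≤ ∑ j', ‖A i j'‖ :=
        Finset.single_le_sum (f := fun j' => ‖A i j'‖) (fun j' _ => norm_nonneg _)
          (Finset.mem_univ j)
      have h2 : ∑ j', ‖A i j'‖ ≤ ∑ i', ∑ j', ‖A i' j'‖ :=
        Finset.single_le_sum (f := fun i' => ∑ j', ‖A i' j'‖)
          (fun i' _ => Finset.sum_nonneg fun j' _ => norm_nonneg _) (Finset.mem_univ i)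
      linarith
  obtain ⟨u, hu0, hu⟩ := NormedField.exists_norm_lt F (div_pos hδ hM0)
  have hu0' : u ≠ 0 := norm_pos_iff.1 hu0
  obtain ⟨U, hU, hUe⟩ := h (B + u • A) (by rw [Matrix.transpose_add, Matrix.transpose_smul, hA, hB])
    (by
      intro i j
      have e : (B + u • A) i j - B i j = u * A i j := by
        simp [Matrix.add_apply, Matrix.smul_apply]
      rw [e, norm_mul]
      calc ‖u‖ * ‖A i j‖ ≤ ‖u‖ * M := mul_le_mul_of_nonneg_left (hM i j) (norm_nonneg _)
        _ < δ / M * M := mul_lt_mul_of_pos_right hu hM0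
        _ = δ := div_mul_cancel₀ _ hM0.ne')
  have hUd : U.det ≠ 0 := by
    intro h0
    have := hU.2
    rw [h0, norm_zero] at this
    exact zero_ne_one this
  have e : A + u⁻¹ • B = u⁻¹ • (U.transpose * B * U) := by
    rw [hUe, smul_add, smul_smul, inv_mul_cancel₀ hu0', one_smul, add_comm]
  refine ⟨u⁻¹, ?_, ?_⟩
  · rw [e, Matrix.det_smul, Matrix.det_mul, Matrix.det_mul, Matrix.det_transpose]
    exact mul_ne_zero (pow_ne_zero _ (inv_ne_zero hu0')) (mul_ne_zero (mul_ne_zero hUd hdet) hUd)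
  · rw [e, isoSp_smul_iff _ (inv_ne_zero hu0'), isoSp_congr U B hUd]
    exact hiso

end Pool.Agent.H59.N6D
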